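import Pool.Agent.Run7.h811.NB.VEL

set_option autoImplicit false

/-! # Project NB (MP_70f7a7_an): ELL -/

namespace Run7.h811.NB

open MeasureTheory Set Filter Topology
open Pool.Agent.Y516.NW (E3 Cfg Surf acc gr Mot NonW Free Z IsFl vel)
open Run7.h852.NW

/-- lower bound from a differential inequality -/
theorem lower {τ c : ℝ → ℝ} (hτ : ∀ t, HasDerivAt τ (c t) t) {f f' : ℝ → ℝ}
    (hf : ∀ t, HasDerivAt f (f' t) t) {K s : ℝ} (hb : ∀ x, s ≤ x → c x * K ≤ f' x)
    {t : ℝ} (ht : s ≤ t) : f s + K * (τ t - τ s) ≤ f t := by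
  have hd : ∀ x, HasDerivAt (fun x => f x - K * τ x) (f' x - K * c x) x :=
    fun x => (hf x).sub ((hτ x).const_mul K)
  have hmono : MonotoneOn (fun x => f x - K * τ x) (Ici s) := by
    refine monotoneOn_of_deriv_nonneg (convex_Ici s)
      (fun x _ => (hd x).continuousAt.continuousWithinAt)
      (fun x _ => (hd x).differentiableAt.differentiableWithinAt) ?_
    intro x hx
    rw [(hd x).deriv]
    have := hb x (interior_subset hx)
    linarith
  have := hmono (mem_Ici.2 le_rfl) (mem_Ici.2 ht) ht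
  simp only at this
  linarith

theorem t_ELL : EllStm := by
  classical
  intro N m hm σ hσ q v c τ E hmot hlin k hk
  obtain ⟨a, ha, T, hT⟩ := far_ev hlin
  obtain ⟨R, hR⟩ := hlin.bdd k
  set Mp := m k + m (σ k) with hMp
  have hMp0 : 0 < Mp := add_pos (hm _) (hm _)
  set M := ∑ j, m j with hM
  have hM0 : 0 ≤ M := Finset.sum_nonneg fun j _ => (hm j).le
  set C := 128 * M / a ^ 3 with hC
  have hC0 : 0 ≤ C := by positivity
  have hr0 : ∀ t, 0 < ‖q t k - q t (σ k)‖ := fun t =>
    norm_pos_iff.2 (sub_ne_zero.2 (hmot.ne t k (σ k) hk.symm))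
  have hR0 : 0 < R := by
    obtain ⟨t, ht⟩ := hR.exists
    exact (hr0 t).trans_le ht
  -- bound of the tidal force
  have htid : ∀ t, T ≤ t → ‖tid m σ (q t) k‖ ≤ ‖q t k - q t (σ k)‖ * (C / τ t ^ 2) := by
    intro t ht
    obtain ⟨h1, h2⟩ := hT t ht
    have h0 : 0 < τ t := by linarith
    have hat : 0 < a * τ t := mul_pos ha h0
    have h3 := tid_le hm (σ := σ) (q := q t) (k := k) (D := fun _ => a * τ t)
      (fun j hj => ⟨hat, by linarith [h2 k j hj], by linarith [h2 (σ k) j (P_sig hσ hj)]⟩)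
    refine h3.trans (mul_le_mul_of_nonneg_left ?_ (norm_nonneg _))
    have hle : ∑ j ∈ Finset.univ.filter (fun j => P σ k j), m j ≤ M :=
      Finset.sum_le_sum_of_subset_of_nonneg (Finset.filter_subset _ _) fun j _ _ => (hm j).le
    rw [← Finset.sum_div, ← Finset.mul_sum]
    have h4 : 128 * ∑ j ∈ Finset.univ.filter (fun j => P σ k j), m j ≤ 128 * M := by linarith
    calc (128 * ∑ j ∈ Finset.univ.filter (fun j => P σ k j), m j) / (a * τ t) ^ 3
        ≤ 128 * M / (a * τ t) ^ 3 := div_le_div_of_nonneg_right h4 (by positivity)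
      _ = C / τ t ^ 3 := by rw [hC, mul_pow, div_div]
      _ ≤ C / τ t ^ 2 := by
          refine div_le_div_of_nonneg_left hC0 (by positivity) ?_
          exact pow_le_pow_right₀ h1 (by norm_num)
  set h := fun t => pe m σ (q t) (v t) k with hh
  have hhd : ∀ t, HasDerivAt h (c t * inner ℝ (v t k - v t (σ k)) (tid m σ (q t) k)) t :=
    fun t => pe_deriv hmot hk t
  -- (i)
  have hi : ∀ S, ∃ t, S ≤ t ∧ h t < -(Mp / (8 * R)) := by
    intro S
    by_contra hcon
    push Not at hcon
    have hτev : ∀ᶠ t in atTop, 4 * R ^ 3 * C / Mp + 1 ≤ τ t := hlin.time.eventually_ge_atTop _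
    obtain ⟨S1, hS1⟩ := Filter.eventually_atTop.1 ((hτev.and hR).and
      ((Filter.eventually_ge_atTop T).and (Filter.eventually_ge_atTop S)))
    set G := fun t => inner ℝ (q t k - q t (σ k)) (v t k - v t (σ k)) with hG
    have hGd : ∀ t, HasDerivAt G (c t * (2 * h t + Mp / ‖q t k - q t (σ k)‖ +
        inner ℝ (q t k - q t (σ k)) (tid m σ (q t) k))) t := by
      intro t
      have h1 := (rd (σ := σ) hmot k t).inner ℝ (ud (σ := σ) hmot k t)
      refine h1.congr_deriv ?_
      rw [acc_diff m σ (q t) k hk, inner_smul_right, real_inner_smul_left, inner_sub_right,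
        inner_smul_right, real_inner_self_eq_norm_sq, real_inner_self_eq_norm_sq, hh]
      simp only [pe]
      rw [← hMp]
      have := hr0 t
      field_simp
      ring
    have hGb : ∀ t, S1 ≤ t → c t * (Mp / (2 * R)) ≤ c t * (2 * h t + Mp / ‖q t k - q t (σ k)‖ +
        inner ℝ (q t k - q t (σ k)) (tid m σ (q t) k)) := by
      intro t ht
      obtain ⟨⟨e1, e2⟩, e3, e4⟩ := hS1 t ht
      refine mul_le_mul_of_nonneg_left ?_ (hmot.cpos t).le
      have e5 := hcon t e4
      have e6 : Mp / R ≤ Mp / ‖q t k - q t (σ k)‖ :=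
        div_le_div_of_nonneg_left hMp0.le (hr0 t) e2
      have e7 := abs_real_inner_le_norm (q t k - q t (σ k)) (tid m σ (q t) k)
      have e8 := htid t e3
      have e9 : 1 ≤ τ t := (hT t e3).1
      have e10 : ‖q t k - q t (σ k)‖ * ‖tid m σ (q t) k‖ ≤ Mp / (4 * R) := by
        calc ‖q t k - q t (σ k)‖ * ‖tid m σ (q t) k‖
            ≤ R * (R * (C / τ t ^ 2)) := by
              refine mul_le_mul e2 (e8.trans (mul_le_mul_of_nonneg_right e2 (by positivity)))
                (norm_nonneg _) hR0.le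
          _ = R ^ 2 * C / τ t ^ 2 := by ring
          _ ≤ R ^ 2 * C / τ t := by
              refine div_le_div_of_nonneg_left (by positivity) (by linarith) ?_
              nlinarith
          _ ≤ Mp / (4 * R) := by
              rw [div_le_div_iff₀ (by linarith) (by positivity)]
              have e11 : 4 * R ^ 3 * C / Mp ≤ τ t := by linarith
              rw [div_le_iff₀ hMp0] at e11
              nlinarith
      have e12 := neg_abs_le (inner ℝ (q t k - q t (σ k)) (tid m σ (q t) k))
      have e13 : Mp / (2 * R) = 2 * (-(Mp / (8 * R))) + Mp / R - Mp / (4 * R) := by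
        field_simp; ring
      rw [e13]
      linarith
    have hG1 : ∀ t, S1 ≤ t → G S1 + Mp / (2 * R) * (τ t - τ S1) ≤ G t :=
      fun t ht => lower hmot.τd hGd hGb ht
    have hgev : ∀ᶠ t in atTop, (1 - G S1) / (Mp / (2 * R)) + τ S1 ≤ τ t :=
      hlin.time.eventually_ge_atTop _
    obtain ⟨S2, hS2⟩ := Filter.eventually_atTop.1 (hgev.and (Filter.eventually_ge_atTop S1))
    have hG2 : ∀ t, S2 ≤ t → 1 ≤ G t := by
      intro t ht
      obtain ⟨e1, e2⟩ := hS2 t ht
      have e3 := hG1 t e2
      have e4 : (1 - G S1) / (Mp / (2 * R)) ≤ τ t - τ S1 := by linarith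
      rw [div_le_iff₀ (by positivity)] at e4
      linarith
    have hHd : ∀ t, HasDerivAt (fun s => ‖q s k - q s (σ k)‖ ^ 2) (2 * (c t * G t)) t := by
      intro t
      refine ((rd (σ := σ) hmot k t).norm_sq).congr_deriv ?_
      rw [inner_smul_right]
    have hH1 : ∀ t, S2 ≤ t → ‖q S2 k - q S2 (σ k)‖ ^ 2 + 2 * (τ t - τ S2) ≤
        ‖q t k - q t (σ k)‖ ^ 2 := by
      intro t ht
      refine lower hmot.τd hHd ?_ ht
      intro x hx
      have e1 := hG2 x hx
      have e2 := hmot.cpos x
      nlinarith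
    obtain ⟨t, ht1, ht2⟩ := ((hlin.time.eventually_gt_atTop (R ^ 2 + τ S2)).and
      ((Filter.eventually_ge_atTop S2).and (Filter.eventually_ge_atTop S1))).exists
    have e1 := hH1 t ht2.1
    have e2 := (hS1 t ht2.2).1.2
    have e3 : ‖q t k - q t (σ k)‖ ^ 2 ≤ R ^ 2 := pow_le_pow_left₀ (norm_nonneg _) e2 2
    have e4 := sq_nonneg ‖q S2 k - q S2 (σ k)‖
    have e5 := sq_nonneg R
    linarith
  -- (ii)
  set K := C * (1 + 2 * Mp * R) + 1 with hK
  have hK0 : 0 < K := by positivity
  have hτev : ∀ᶠ t in atTop, K * (16 * R) / Mp + 1 ≤ τ t := hlin.time.eventually_ge_atTop _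
  obtain ⟨S1, hS1⟩ := Filter.eventually_atTop.1 ((hτev.and hR).and
    (Filter.eventually_ge_atTop T))
  obtain ⟨S, hS, hSh⟩ := hi S1
  refine ⟨Mp / (16 * R), by positivity, ?_⟩
  filter_upwards [Filter.eventually_ge_atTop S] with t ht
  have hτS : K / τ S ≤ Mp / (16 * R) := by
    have e1 := (hS1 S hS).1.1
    have e2 : 1 ≤ τ S := (hT S (hS1 S hS).2).1
    rw [div_le_div_iff₀ (by linarith) (by positivity)]
    have e3 : K * (16 * R) / Mp ≤ τ S := by linarith
    rw [div_le_iff₀ hMp0] at e3
    linarith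
  have hpos : ∀ x ∈ Icc S t, 0 < τ x := by
    intro x hx
    have := (hT x (hS1 x (hS.trans hx.1)).2).1
    linarith
  have hBd : ∀ x ∈ Icc S t, HasDerivAt (fun x => h S + K * (1 / τ S - 1 / τ x))
      (c x * (K / τ x ^ 2)) x := by
    intro x hx
    have h1 := ((((hmot.τd x).inv (hpos x hx).ne').const_sub (1 / τ S)).const_mul K).const_add (h S)
    refine (h1.congr_of_eventuallyEq (Filter.Eventually.of_forall fun y => ?_)).congr_deriv ?_
    · simp only [Pi.inv_apply, one_div]
    · ring
  have hBneg : ∀ x ∈ Icc S t, h S + K * (1 / τ S - 1 / τ x) ≤ -(Mp / (16 * R)) := by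
    intro x hx
    have e1 := hpos x hx
    have e2 : 0 ≤ 1 / τ x := by positivity
    have e3 : K * (1 / τ S - 1 / τ x) ≤ K / τ S := by
      calc K * (1 / τ S - 1 / τ x) ≤ K * (1 / τ S) :=
            mul_le_mul_of_nonneg_left (by linarith) hK0.le
        _ = K / τ S := by ring
    have e4 : -(Mp / (8 * R)) + Mp / (16 * R) = -(Mp / (16 * R)) := by field_simp; ring
    linarith
  have key := image_le_of_deriv_right_lt_deriv_boundary' (a := S) (b := t) (f := h)
    (f' := fun x => c x * inner ℝ (v x k - v x (σ k)) (tid m σ (q x) k))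
    (fun x _ => (hhd x).continuousAt.continuousWithinAt)
    (fun x _ => (hhd x).hasDerivWithinAt)
    (B := fun x => h S + K * (1 / τ S - 1 / τ x)) (B' := fun x => c x * (K / τ x ^ 2))
    (by simp) (fun x hx => (hBd x hx).continuousAt.continuousWithinAt)
    (fun x hx => (hBd x (Ico_subset_Icc_self hx)).hasDerivWithinAt)
    (by
      intro x hx heq
      have hx' := Ico_subset_Icc_self hx
      have e1 := hBneg x hx'
      have e2 : h x ≤ 0 := by
        rw [heq]
        refine e1.trans ?_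
        rw [neg_nonpos]; positivity
      obtain ⟨⟨_, e3⟩, e4⟩ := hS1 x (hS.trans hx.1)
      have e5 := htid x e4
      have e6 := hpos x hx'
      refine mul_lt_mul_of_pos_left ?_ (hmot.cpos x)
      have e7 := real_inner_le_norm (v x k - v x (σ k)) (tid m σ (q x) k)
      set r := ‖q x k - q x (σ k)‖ with hr
      set u := ‖v x k - v x (σ k)‖ with hu
      have e8 : u ^ 2 / 2 - Mp / r ≤ 0 := e2
      have hrx : 0 < r := hr0 x
      have e9 : (u * r) ^ 2 ≤ 2 * Mp * R := by
        have f1 : u ^ 2 ≤ 2 * (Mp / r) := by linarith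
        have f2 : Mp / r * r = Mp := div_mul_cancel₀ Mp hrx.ne'
        calc (u * r) ^ 2 = u ^ 2 * (r * r) := by ring
          _ ≤ 2 * (Mp / r) * (r * r) := mul_le_mul_of_nonneg_right f1 (by positivity)
          _ = 2 * (Mp / r * r) * r := by ring
          _ = 2 * Mp * r := by rw [f2]
          _ ≤ 2 * Mp * R := mul_le_mul_of_nonneg_left e3 (by positivity)
      have e10 : u * r ≤ 1 + 2 * Mp * R := by nlinarith [sq_nonneg (u * r - 1)]
      have e11 : u * ‖tid m σ (q x) k‖ ≤ C * (1 + 2 * Mp * R) / τ x ^ 2 := by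
        calc u * ‖tid m σ (q x) k‖ ≤ u * (r * (C / τ x ^ 2)) :=
              mul_le_mul_of_nonneg_left e5 (norm_nonneg _)
          _ = u * r * (C / τ x ^ 2) := by ring
          _ ≤ (1 + 2 * Mp * R) * (C / τ x ^ 2) :=
              mul_le_mul_of_nonneg_right e10 (by positivity)
          _ = _ := by ring
      refine (e7.trans e11).trans_lt ?_
      rw [hK]
      exact div_lt_div_of_pos_right (by linarith) (by positivity))
  have := key ⟨ht, le_refl t⟩
  exact (this.trans (hBneg t ⟨ht, le_refl t⟩))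

end Run7.h811.NB
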