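import Pool.Agent.Run7.h811.NB.Base

set_option autoImplicit false

/-! # Project NB (MP_70f7a7_an): PAIR -/

namespace Run7.h811.NB

open MeasureTheory Set Filter Topology
open Pool.Agent.Y516.NW (E3 Cfg Surf acc gr Mot NonW Free Z IsFl vel)
open Run7.h852.NW

/-- bound of `|u| |r|` for a tight pair -/
theorem ur_le {Mp κ r u : ℝ} (hM : 0 < Mp) (hκ : 0 < κ) (hr : 0 < r)
    (h : u ^ 2 / 2 - Mp / r ≤ -κ / 2) : u * r ≤ 2 * Mp / Real.sqrt κ := by
  have h1 : Mp / r * r = Mp := div_mul_cancel₀ Mp hr.ne'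
  have h2 : κ / 2 * r ≤ Mp := by
    have : κ / 2 ≤ Mp / r := by nlinarith [sq_nonneg u]
    calc κ / 2 * r ≤ Mp / r * r := mul_le_mul_of_nonneg_right this hr.le
      _ = Mp := h1
  have h3 : u ^ 2 * r ≤ 2 * Mp := by
    have : u ^ 2 ≤ 2 * (Mp / r) := by linarith
    calc u ^ 2 * r ≤ 2 * (Mp / r) * r := mul_le_mul_of_nonneg_right this hr.le
      _ = 2 * Mp := by rw [mul_assoc, h1]
  have hs : 0 < Real.sqrt κ := Real.sqrt_pos.2 hκ
  rw [le_div_iff₀ hs]
  have h4 : (u * r * Real.sqrt κ) ^ 2 ≤ (2 * Mp) ^ 2 := by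
    have e : (u * r * Real.sqrt κ) ^ 2 = (u ^ 2 * r) * (κ * r) := by
      rw [mul_pow, mul_pow, Real.sq_sqrt hκ.le]; ring
    rw [e, sq (2 * Mp)]
    exact mul_le_mul h3 (by linarith) (by positivity) (by positivity)
  exact le_of_sq_le_sq h4 (by positivity)

theorem t_PAIR : PairStm := by
  classical
  intro N m hm σ hσ q v c τ E hmot k hk D T hT hD κ hκ hpe B B' hB hB0 hBB
  set Mp := m k + m (σ k) with hMp
  have hMp0 : 0 < Mp := add_pos (hm _) (hm _)
  have hs : 0 < Real.sqrt κ := Real.sqrt_pos.2 hκ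
  have key := image_norm_le_of_norm_deriv_right_le_deriv_boundary (a := 0) (b := T)
    (f := fun s => pe m σ (q s) (v s) k - pe m σ (q 0) (v 0) k)
    (f' := fun t => c t * inner ℝ (v t k - v t (σ k)) (tid m σ (q t) k))
    (fun t _ => ((pe_deriv hmot hk t).sub_const _).continuousAt.continuousWithinAt)
    (fun t _ => ((pe_deriv hmot hk t).sub_const _).hasDerivWithinAt)
    (B := fun t => 2 * Mp / Real.sqrt κ * B t)
    (B' := fun t => 2 * Mp / Real.sqrt κ * B' t)
    (by simp [hB0]) (fun t => (hB t).const_mul _)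
    (by
      intro t ht
      have hr0 : 0 < ‖q t k - q t (σ k)‖ :=
        norm_pos_iff.2 (sub_ne_zero.2 (hmot.ne t k (σ k) hk.symm))
      have h1 := tid_le hm (hD t ht.1 ht.2.le)
      have h2 := ur_le hMp0 hκ hr0 (hpe t ht.1 ht.2.le)
      have h3 := hBB t ht.1 ht.2.le
      rw [norm_mul, Real.norm_of_nonneg (hmot.cpos t).le, Real.norm_eq_abs]
      have h4 := abs_real_inner_le_norm (v t k - v t (σ k)) (tid m σ (q t) k)
      set S := ∑ j ∈ Finset.univ.filter (fun j => P σ k j), 128 * m j / D j t ^ 3 with hS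
      have hS0 : 0 ≤ S := by
        refine Finset.sum_nonneg fun j hj => ?_
        have := (hD t ht.1 ht.2.le j (Finset.mem_filter.1 hj).2).1
        have := hm j
        positivity
      calc c t * |inner ℝ (v t k - v t (σ k)) (tid m σ (q t) k)|
          ≤ c t * (‖v t k - v t (σ k)‖ * (‖q t k - q t (σ k)‖ * S)) :=
            mul_le_mul_of_nonneg_left (h4.trans (mul_le_mul_of_nonneg_left h1 (norm_nonneg _)))
              (hmot.cpos t).le
        _ = (‖v t k - v t (σ k)‖ * ‖q t k - q t (σ k)‖) * (c t * S) := by ring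
        _ ≤ 2 * Mp / Real.sqrt κ * (c t * S) :=
            mul_le_mul_of_nonneg_right h2 (mul_nonneg (hmot.cpos t).le hS0)
        _ ≤ 2 * Mp / Real.sqrt κ * B' t :=
            mul_le_mul_of_nonneg_left h3 (by positivity))
  have := key ⟨hT, le_refl T⟩
  rwa [Real.norm_eq_abs] at this

end Run7.h811.NB
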