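import Pool.Agent.Run7.h852.NW.Stm

set_option autoImplicit false

/-!
# Project NB (MP_70f7a7_an): common lemmas on clusters of at most two bodies
-/

namespace Run7.h811.NB

open MeasureTheory Set Filter Topology
open Pool.Agent.Y516.NW (E3 Cfg Surf acc gr Mot NonW Free Z IsFl vel)
open Pool.Agent.Y421.NW (tr tr_self tr_le split)
open Run7.h852.NW

/-- `x ↦ x / |x|^3` is Lipschitz away from the origin -/
theorem inv3 {x y : E3} {ρ : ℝ} (hρ : 0 < ρ) (hx : ρ ≤ ‖x‖) (hy : ρ ≤ ‖y‖) :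
    ‖(1 / ‖x‖ ^ 3) • x - (1 / ‖y‖ ^ 3) • y‖ ≤ 2 * ‖x - y‖ / ρ ^ 3 := by
  have hx0 : 0 < ‖x‖ := hρ.trans_le hx
  have hy0 : 0 < ‖y‖ := hρ.trans_le hy
  have hxn : x ≠ 0 := norm_pos_iff.1 hx0
  have hyn : y ≠ 0 := norm_pos_iff.1 hy0
  have h1 : ‖(1 / ‖x‖) ^ 2 • x - (1 / ‖y‖) ^ 2 • y‖ = 1 / (‖x‖ * ‖y‖) * ‖x - y‖ := by
    have := dist_div_norm_sq_smul hxn hyn 1
    rw [dist_eq_norm, dist_eq_norm, one_pow] at this
    exact this
  have h2 : (1 / ‖x‖ ^ 3) • x - (1 / ‖y‖ ^ 3) • y =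
      (1 / ‖x‖) • ((1 / ‖x‖) ^ 2 • x - (1 / ‖y‖) ^ 2 • y) +
        ((1 / ‖x‖ - 1 / ‖y‖) * (1 / ‖y‖) ^ 2) • y := by
    rw [smul_sub, smul_smul, smul_smul, sub_mul, sub_smul]
    have e1 : 1 / ‖x‖ * (1 / ‖x‖) ^ 2 = 1 / ‖x‖ ^ 3 := by
      rw [div_pow, one_pow, div_mul_div_comm, one_mul]; congr 1; ring
    have e2 : 1 / ‖y‖ * (1 / ‖y‖) ^ 2 = 1 / ‖y‖ ^ 3 := by
      rw [div_pow, one_pow, div_mul_div_comm, one_mul]; congr 1; ring
    rw [e1, e2]; abel
  have h3 : 1 / (‖x‖ * ‖y‖) ≤ 1 / ρ ^ 2 := by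
    rw [sq]; exact one_div_le_one_div_of_le (mul_pos hρ hρ) (mul_le_mul hx hy hρ.le hx0.le)
  have h4 : 1 / ‖x‖ ≤ 1 / ρ := one_div_le_one_div_of_le hρ hx
  have h5 : 1 / ‖y‖ ≤ 1 / ρ := one_div_le_one_div_of_le hρ hy
  have h6 : ‖((1 / ‖x‖ - 1 / ‖y‖) * (1 / ‖y‖) ^ 2) • y‖ =
      1 / (‖x‖ * ‖y‖) * |‖y‖ - ‖x‖| * (1 / ‖y‖) := by
    rw [norm_smul, Real.norm_eq_abs, abs_mul, abs_of_pos (a := (1 / ‖y‖) ^ 2) (by positivity)]
    have e1 : 1 / ‖x‖ - 1 / ‖y‖ = 1 / (‖x‖ * ‖y‖) * (‖y‖ - ‖x‖) := by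
      field_simp
    rw [e1, abs_mul, abs_of_pos (a := 1 / (‖x‖ * ‖y‖)) (by positivity)]
    field_simp
  have h7 : |‖y‖ - ‖x‖| ≤ ‖x - y‖ := by
    rw [abs_sub_comm]; exact abs_norm_sub_norm_le x y
  rw [h2]
  refine (norm_add_le _ _).trans ?_
  rw [norm_smul, Real.norm_of_nonneg (by positivity : 0 ≤ 1 / ‖x‖), h1, h6]
  have h8 : 1 / ‖x‖ * (1 / (‖x‖ * ‖y‖) * ‖x - y‖) ≤ 1 / ρ * (1 / ρ ^ 2 * ‖x - y‖) :=
    mul_le_mul h4 (mul_le_mul_of_nonneg_right h3 (norm_nonneg _)) (by positivity) (by positivity)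
  have h9 : 1 / (‖x‖ * ‖y‖) * |‖y‖ - ‖x‖| * (1 / ‖y‖) ≤ 1 / ρ ^ 2 * ‖x - y‖ * (1 / ρ) :=
    mul_le_mul (mul_le_mul h3 h7 (abs_nonneg _) (by positivity)) h5 (by positivity)
      (by positivity)
  have h10 : 1 / ρ * (1 / ρ ^ 2 * ‖x - y‖) + 1 / ρ ^ 2 * ‖x - y‖ * (1 / ρ) =
      2 * ‖x - y‖ / ρ ^ 3 := by
    field_simp; ring
  linarith

open Classical in
/-- the tidal force on the pair of `k` -/
noncomputable def tid {N : ℕ} (m : Fin N → ℝ) (σ : Fin N → Fin N) (q : Cfg N) (k : Fin N) : E3 :=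
  ∑ j ∈ Finset.univ.filter (fun j => P σ k j), (tr m q k j - tr m q (σ k) j)



open Classical in
theorem filt_eq {N : ℕ} {σ : Fin N → Fin N} (k : Fin N) :
    Finset.univ.filter (fun j => P σ k j) =
      Finset.univ.filter (fun j => j ≠ k ∧ j ≠ σ k) := by
  ext j
  simp only [Finset.mem_filter, Finset.mem_univ, true_and, P]
  constructor
  · rintro ⟨h1, h2⟩; exact ⟨fun h => h1 h.symm, fun h => h2 h.symm⟩
  · rintro ⟨h1, h2⟩; exact ⟨fun h => h1 h.symm, fun h => h2 h.symm⟩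

theorem acc_eq {N : ℕ} (m : Fin N → ℝ) (q : Cfg N) (i : Fin N) : acc m q i = ∑ j, tr m q i j := rfl

/-- difference of the accelerations of the two bodies of a pair -/
theorem acc_diff {N : ℕ} (m : Fin N → ℝ) (σ : Fin N → Fin N) (q : Cfg N) (k : Fin N)
    (hk : σ k ≠ k) :
    acc m q k - acc m q (σ k) =
      tid m σ q k - ((m k + m (σ k)) / ‖q k - q (σ k)‖ ^ 3) • (q k - q (σ k)) := by
  rw [acc_eq, acc_eq, ← Finset.sum_sub_distrib, split hk.symm, tr_self, tr_self]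
  unfold tid
  rw [filt_eq]
  have e : (0 - tr m q (σ k) k) + (tr m q k (σ k) - 0) =
      -(((m k + m (σ k)) / ‖q k - q (σ k)‖ ^ 3) • (q k - q (σ k))) := by
    unfold tr
    have e1 : ‖q (σ k) - q k‖ = ‖q k - q (σ k)‖ := norm_sub_rev _ _
    have e2 : q (σ k) - q k = -(q k - q (σ k)) := by abel
    rw [e1, e2, add_div, add_smul, smul_neg]
    abel
  rw [e, ← sub_eq_add_neg]

open Classical in
theorem tid_le {N : ℕ} {m : Fin N → ℝ} (hm : ∀ i, 0 < m i) {σ : Fin N → Fin N} {q : Cfg N}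
    {k : Fin N} {D : Fin N → ℝ}
    (hD : ∀ j, P σ k j → 0 < D j ∧ D j / 4 ≤ ‖q k - q j‖ ∧ D j / 4 ≤ ‖q (σ k) - q j‖) :
    ‖tid m σ q k‖ ≤ ‖q k - q (σ k)‖ *
      ∑ j ∈ Finset.univ.filter (fun j => P σ k j), 128 * m j / D j ^ 3 := by
  unfold tid
  rw [Finset.mul_sum]
  refine (norm_sum_le _ _).trans (Finset.sum_le_sum fun j hj => ?_)
  obtain ⟨h0, h1, h2⟩ := hD j (Finset.mem_filter.1 hj).2
  rw [norm_sub_rev] at h1 h2
  have h3 := inv3 (by positivity) h1 h2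
  have h4 : tr m q k j - tr m q (σ k) j = m j • ((1 / ‖q j - q k‖ ^ 3) • (q j - q k) -
      (1 / ‖q j - q (σ k)‖ ^ 3) • (q j - q (σ k))) := by
    unfold tr
    rw [smul_sub (m j), smul_smul, smul_smul, mul_one_div, mul_one_div]
  rw [h4, norm_smul, Real.norm_of_nonneg (hm j).le]
  have h5 : (q j - q k) - (q j - q (σ k)) = -(q k - q (σ k)) := by abel
  rw [h5, norm_neg] at h3
  calc m j * _ ≤ m j * (2 * ‖q k - q (σ k)‖ / (D j / 4) ^ 3) :=
        mul_le_mul_of_nonneg_left h3 (hm j).le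
    _ = _ := by field_simp; ring

/-- derivative of the energy of a pair -/
theorem pe_deriv {N : ℕ} {m : Fin N → ℝ} {σ : Fin N → Fin N}
    {q v : ℝ → Cfg N} {c τ : ℝ → ℝ} {E : ℝ} (hmot : Mot m E q v c τ) {k : Fin N} (hk : σ k ≠ k)
    (t : ℝ) :
    HasDerivAt (fun s => pe m σ (q s) (v s) k)
      (c t * inner ℝ (v t k - v t (σ k)) (tid m σ (q t) k)) t := by
  have hr : HasDerivAt (fun s => q s k - q s (σ k)) (c t • (v t k - v t (σ k))) t := by
    rw [smul_sub]; exact (hmot.qd t k).sub (hmot.qd t (σ k))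
  have hu : HasDerivAt (fun s => v s k - v s (σ k))
      (c t • (acc m (q t) k - acc m (q t) (σ k))) t := by
    rw [smul_sub]; exact (hmot.vd t k).sub (hmot.vd t (σ k))
  have hr0 : 0 < ‖q t k - q t (σ k)‖ := norm_pos_iff.2 (sub_ne_zero.2 (hmot.ne t k (σ k) hk.symm))
  have hn : HasDerivAt (fun s => ‖q s k - q s (σ k)‖)
      (inner ℝ (q t k - q t (σ k)) (c t • (v t k - v t (σ k))) / ‖q t k - q t (σ k)‖) t := by
    have h1 := hr.norm_sq
    have h2 := h1.sqrt (by positivity)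
    have h3 : (fun s => √(‖q s k - q s (σ k)‖ ^ 2)) = fun s => ‖q s k - q s (σ k)‖ := by
      funext s; exact Real.sqrt_sq (norm_nonneg _)
    rw [h3] at h2
    refine h2.congr_deriv ?_
    rw [Real.sqrt_sq (norm_nonneg _)]
    field_simp
  have h4 := (hu.norm_sq.div_const 2).sub ((hn.inv hr0.ne').const_mul (m k + m (σ k)))
  refine (h4.congr_of_eventuallyEq (Filter.Eventually.of_forall fun s => ?_)).congr_deriv ?_
  · simp only [pe, Pi.sub_apply, Pi.inv_apply]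
    rw [div_eq_mul_inv (m k + m (σ k))]
  · rw [acc_diff m σ (q t) k hk, inner_smul_right, inner_smul_right, inner_sub_right,
      inner_smul_right, real_inner_comm (v t k - v t (σ k)) (q t k - q t (σ k))]
    field_simp
    ring

theorem rd {N : ℕ} {m : Fin N → ℝ} {σ : Fin N → Fin N}
    {q v : ℝ → Cfg N} {c τ : ℝ → ℝ} {E : ℝ} (hmot : Mot m E q v c τ) (k : Fin N) (t : ℝ) :
    HasDerivAt (fun s => q s k - q s (σ k)) (c t • (v t k - v t (σ k))) t := by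
  rw [smul_sub]; exact (hmot.qd t k).sub (hmot.qd t (σ k))

theorem ud {N : ℕ} {m : Fin N → ℝ} {σ : Fin N → Fin N}
    {q v : ℝ → Cfg N} {c τ : ℝ → ℝ} {E : ℝ} (hmot : Mot m E q v c τ) (k : Fin N) (t : ℝ) :
    HasDerivAt (fun s => v s k - v s (σ k)) (c t • (acc m (q t) k - acc m (q t) (σ k))) t := by
  rw [smul_sub]; exact (hmot.vd t k).sub (hmot.vd t (σ k))

theorem cm_deriv {N : ℕ} (m : Fin N → ℝ) (σ : Fin N → Fin N) (u : ℝ → Cfg N) (u' : Cfg N) (t c : ℝ)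
    (h : ∀ i, HasDerivAt (fun s => u s i) (c • u' i) t) (i : Fin N) :
    HasDerivAt (fun s => cm m σ (u s) i) (c • cm m σ u' i) t := by
  unfold cm
  have h1 := (((h i).const_smul (m i)).add ((h (σ i)).const_smul (m (σ i)))).const_smul
    ((m i + m (σ i))⁻¹)
  refine h1.congr_deriv ?_
  rw [smul_comm (m i) c, smul_comm (m (σ i)) c, ← smul_add, smul_comm]

/-- distance from a body to the centre of its cluster -/
theorem cm_near {N : ℕ} {m : Fin N → ℝ} (hm : ∀ i, 0 < m i) (σ : Fin N → Fin N) (q : Cfg N)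
    (i : Fin N) : ‖q i - cm m σ q i‖ ≤ ‖q i - q (σ i)‖ := by
  unfold cm
  have hs : 0 < m i + m (σ i) := add_pos (hm i) (hm (σ i))
  have : q i - (m i + m (σ i))⁻¹ • (m i • q i + m (σ i) • q (σ i))
      = ((m i + m (σ i))⁻¹ * m (σ i)) • (q i - q (σ i)) := by
    have h1 : q i = ((m i + m (σ i))⁻¹ * (m i + m (σ i))) • q i := by
      rw [inv_mul_cancel₀ hs.ne', one_smul]
    nth_rewrite 1 [h1]
    rw [mul_smul, add_smul, mul_smul, ← smul_sub]
    congr 1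
    rw [smul_sub]; abel
  rw [this, norm_smul, Real.norm_of_nonneg (mul_nonneg (inv_nonneg.mpr hs.le) (hm _).le)]
  refine mul_le_of_le_one_left (norm_nonneg _) ?_
  rw [inv_mul_le_iff₀ hs]; linarith [hm i]

/-- acceleration of the centre of a cluster -/
theorem cm_acc_le {N : ℕ} {m : Fin N → ℝ} (hm : ∀ i, 0 < m i) {σ : Fin N → Fin N} {q : Cfg N} {i : Fin N} {D : ℝ} (hD : 0 < D)
    (h : ∀ j, P σ i j → D ≤ ‖q i - q j‖ ∧ D ≤ ‖q (σ i) - q j‖) :
    ‖cm m σ (acc m q) i‖ ≤ (∑ j, m j) / D ^ 2 := by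
  classical
  have hs : 0 < m i + m (σ i) := add_pos (hm i) (hm (σ i))
  have hS : ∀ j, P σ i j → ‖tr m q i j‖ ≤ m j / D ^ 2 ∧ ‖tr m q (σ i) j‖ ≤ m j / D ^ 2 := by
    intro j hj
    have e : 16 * m j / (4 * D) ^ 2 = m j / D ^ 2 := by field_simp; ring
    obtain ⟨h1, h2⟩ := h j hj
    refine ⟨?_, ?_⟩
    · rw [← e]; exact tr_le hm q (by positivity) (by linarith)
    · rw [← e]; exact tr_le hm q (by positivity) (by linarith)
  have hle : ∑ j ∈ Finset.univ.filter (fun j => P σ i j), m j ≤ ∑ j, m j :=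
    Finset.sum_le_sum_of_subset_of_nonneg (Finset.filter_subset _ _) fun j _ _ => (hm j).le
  have key : m i • acc m q i + m (σ i) • acc m q (σ i) =
      ∑ j ∈ Finset.univ.filter (fun j => P σ i j), (m i • tr m q i j + m (σ i) • tr m q (σ i) j) := by
    rw [acc_eq, acc_eq, Finset.smul_sum, Finset.smul_sum, ← Finset.sum_add_distrib]
    by_cases hk : σ i = i
    · symm
      refine Finset.sum_subset (Finset.filter_subset _ _) fun j _ hj => ?_
      have hji : j = i := by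
        by_contra hne
        apply hj
        rw [Finset.mem_filter]
        exact ⟨Finset.mem_univ _, fun h => hne h.symm, fun h => hne (by rw [← h, hk])⟩
      rw [hji, hk, tr_self, smul_zero, add_zero]
    · rw [split (Ne.symm hk), tr_self, tr_self, filt_eq]
      have e : m i • (0 : E3) + m (σ i) • tr m q (σ i) i + (m i • tr m q i (σ i) + m (σ i) • 0) = 0 := by
        unfold tr
        have e1 : ‖q (σ i) - q i‖ = ‖q i - q (σ i)‖ := norm_sub_rev _ _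
        rw [smul_zero, smul_zero, zero_add, add_zero, e1, smul_smul, smul_smul]
        have e2 : q (σ i) - q i = -(q i - q (σ i)) := by abel
        rw [e2, smul_neg, ← sub_eq_add_neg, ← sub_smul]
        have e3 : m (σ i) * (m i / ‖q i - q (σ i)‖ ^ 3) - m i * (m (σ i) / ‖q i - q (σ i)‖ ^ 3) = 0 := by
          ring
        rw [e3, zero_smul]
      rw [e, add_zero]
  unfold cm
  rw [key, norm_smul, norm_inv, Real.norm_of_nonneg hs.le, inv_mul_le_iff₀ hs]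
  refine (norm_sum_le _ _).trans ?_
  have hb : ∀ j ∈ Finset.univ.filter (fun j => P σ i j),
      ‖m i • tr m q i j + m (σ i) • tr m q (σ i) j‖ ≤ (m i + m (σ i)) * (m j / D ^ 2) := by
    intro j hj
    obtain ⟨h1, h2⟩ := hS j (Finset.mem_filter.1 hj).2
    refine (norm_add_le _ _).trans ?_
    rw [norm_smul, norm_smul, Real.norm_of_nonneg (hm _).le, Real.norm_of_nonneg (hm _).le, add_mul]
    exact add_le_add (mul_le_mul_of_nonneg_left h1 (hm _).le)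
      (mul_le_mul_of_nonneg_left h2 (hm _).le)
  refine (Finset.sum_le_sum hb).trans ?_
  rw [← Finset.mul_sum, ← Finset.sum_div]
  gcongr

end Run7.h811.NB
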