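import Pool.Agent.Run7.h811.NB.Base

set_option autoImplicit false

/-! # Project NB (MP_70f7a7_an): VEL -/

namespace Run7.h811.NB

open MeasureTheory Set Filter Topology
open Pool.Agent.Y516.NW (E3 Cfg Surf acc gr Mot NonW Free Z IsFl vel)
open Run7.h852.NW

theorem P_sig {N : ℕ} {σ : Fin N → Fin N} (hσ : ∀ i, σ (σ i) = i) {i j : Fin N}
    (h : P σ i j) : P σ (σ i) j := ⟨h.2, by rw [hσ]; exact h.1⟩

/-- the distances between the clusters, at late times -/
theorem far_ev {N : ℕ} {σ : Fin N → Fin N} {q : ℝ → Cfg N} {τ : ℝ → ℝ} (h : Lin σ q τ) :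
    ∃ a > 0, ∃ T : ℝ, ∀ t, T ≤ t → 1 ≤ τ t ∧
      ∀ i j, P σ i j → a * τ t ≤ ‖q t i - q t j‖ := by
  have h1 : ∀ p : Fin N × Fin N, ∃ a : ℝ, 0 < a ∧ (P σ p.1 p.2 →
      ∀ᶠ t in atTop, a * τ t ≤ ‖q t p.1 - q t p.2‖) := by
    intro p
    by_cases hp : P σ p.1 p.2
    · obtain ⟨a, ha, hh⟩ := h.sep _ _ hp
      exact ⟨a, ha, fun _ => hh⟩
    · exact ⟨1, one_pos, fun hh => absurd hh hp⟩
  choose a ha hh using h1
  have hs : 0 < 1 + ∑ p, (a p)⁻¹ := by
    have : 0 ≤ ∑ p, (a p)⁻¹ := Finset.sum_nonneg fun p _ => (inv_pos.2 (ha p)).le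
    linarith
  refine ⟨(1 + ∑ p, (a p)⁻¹)⁻¹, inv_pos.2 hs, ?_⟩
  have h2 : ∀ᶠ t in atTop, ∀ p : Fin N × Fin N, P σ p.1 p.2 →
      a p * τ t ≤ ‖q t p.1 - q t p.2‖ := by
    rw [Filter.eventually_all]
    intro p
    by_cases hp : P σ p.1 p.2
    · filter_upwards [hh p hp] with t ht _ using ht
    · exact Filter.Eventually.of_forall fun t hh => absurd hh hp
  have h3 := h2.and (h.time.eventually_ge_atTop 1)
  obtain ⟨T, hT⟩ := Filter.eventually_atTop.1 h3
  refine ⟨T, fun t ht => ⟨(hT t ht).2, fun i j hij => ?_⟩⟩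
  refine le_trans ?_ ((hT t ht).1 (i, j) hij)
  refine mul_le_mul_of_nonneg_right ?_ (zero_le_one.trans (hT t ht).2)
  rw [inv_le_comm₀ hs (ha _)]
  have := Finset.single_le_sum (f := fun p => (a p)⁻¹) (fun p _ => (inv_pos.2 (ha p)).le)
    (Finset.mem_univ (i, j))
  linarith

/-- integrated inequality with `1 / τ^2` -/
theorem nbound {F : Type*} [NormedAddCommGroup F] [NormedSpace ℝ F] {τ c : ℝ → ℝ}
    (hτ : ∀ t, HasDerivAt τ (c t) t) {f f' : ℝ → F} (hf : ∀ t, HasDerivAt f (f' t) t)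
    {K s t : ℝ} (hst : s ≤ t) (hpos : ∀ x ∈ Icc s t, 0 < τ x)
    (hb : ∀ x ∈ Icc s t, ‖f' x‖ ≤ c x * (K / τ x ^ 2)) :
    ‖f t - f s‖ ≤ K * (1 / τ s - 1 / τ t) := by
  have hBd : ∀ x ∈ Icc s t, HasDerivAt (fun x => K * (1 / τ s - 1 / τ x))
      (c x * (K / τ x ^ 2)) x := by
    intro x hx
    have h1 := ((((hτ x).inv (hpos x hx).ne').const_sub (1 / τ s)).const_mul K)
    refine (h1.congr_of_eventuallyEq (Filter.Eventually.of_forall fun y => ?_)).congr_deriv ?_
    · simp only [Pi.inv_apply, one_div]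
    · ring
  have := image_norm_le_of_norm_deriv_right_le_deriv_boundary' (a := s) (b := t)
    (f := fun x => f x - f s) (f' := f')
    (fun x _ => ((hf x).sub_const _).continuousAt.continuousWithinAt)
    (fun x _ => ((hf x).sub_const _).hasDerivWithinAt)
    (B := fun x => K * (1 / τ s - 1 / τ x)) (B' := fun x => c x * (K / τ x ^ 2))
    (by simp) (fun x hx => (hBd x hx).continuousAt.continuousWithinAt)
    (fun x hx => (hBd x (Ico_subset_Icc_self hx)).hasDerivWithinAt)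
    (fun x hx => hb x (Ico_subset_Icc_self hx))
  exact this ⟨hst, le_refl t⟩

/-- integrated inequality with a constant -/
theorem lbound {F : Type*} [NormedAddCommGroup F] [NormedSpace ℝ F] {τ c : ℝ → ℝ}
    (hτ : ∀ t, HasDerivAt τ (c t) t) {f f' : ℝ → F} (hf : ∀ t, HasDerivAt f (f' t) t)
    {K s t : ℝ} (hst : s ≤ t)
    (hb : ∀ x ∈ Icc s t, ‖f' x‖ ≤ c x * K) :
    ‖f t - f s‖ ≤ K * (τ t - τ s) := by
  have hBd : ∀ x, HasDerivAt (fun x => K * (τ x - τ s)) (c x * K) x := by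
    intro x
    refine (((hτ x).sub_const (τ s)).const_mul K).congr_deriv ?_
    ring
  have := image_norm_le_of_norm_deriv_right_le_deriv_boundary (a := s) (b := t)
    (f := fun x => f x - f s) (f' := f')
    (fun x _ => ((hf x).sub_const _).continuousAt.continuousWithinAt)
    (fun x _ => ((hf x).sub_const _).hasDerivWithinAt)
    (B := fun x => K * (τ x - τ s)) (B' := fun x => c x * K)
    (by simp) hBd (fun x hx => hb x (Ico_subset_Icc_self hx))
  exact this ⟨hst, le_refl t⟩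

theorem t_VEL : VelStm := by
  classical
  intro N m hm σ hσ q v c τ E hmot hlin
  obtain ⟨a, ha, T, hT⟩ := far_ev hlin
  set M := ∑ j, m j with hM
  have hM0 : 0 ≤ M := Finset.sum_nonneg fun j _ => (hm j).le
  set K := M / a ^ 2 with hK
  have hK0 : 0 ≤ K := by positivity
  have hvd : ∀ i t, HasDerivAt (fun s => cm m σ (v s) i) (c t • cm m σ (acc m (q t)) i) t :=
    fun i t => cm_deriv m σ v (acc m (q t)) t (c t) (hmot.vd t) i
  have hqd : ∀ i t, HasDerivAt (fun s => cm m σ (q s) i) (c t • cm m σ (v t) i) t :=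
    fun i t => cm_deriv m σ q (v t) t (c t) (hmot.qd t) i
  have hacc : ∀ i t, T ≤ t → ‖cm m σ (acc m (q t)) i‖ ≤ K / τ t ^ 2 := by
    intro i t ht
    obtain ⟨h1, h2⟩ := hT t ht
    have h0 : 0 < τ t := by linarith
    have := cm_acc_le hm (σ := σ) (q := q t) (i := i) (D := a * τ t) (mul_pos ha h0)
      (fun j hj => ⟨h2 i j hj, h2 (σ i) j (P_sig hσ hj)⟩)
    refine this.trans (le_of_eq ?_)
    rw [hK, mul_pow, div_div]
  have hcau : ∀ i s t, T ≤ s → s ≤ t → ‖cm m σ (v t) i - cm m σ (v s) i‖ ≤ K / τ s := by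
    intro i s t hs hst
    have h1 := nbound hmot.τd (hvd i) (K := K) hst
      (fun x hx => by have := (hT x (hs.trans hx.1)).1; linarith)
      (fun x hx => by
        rw [norm_smul, Real.norm_of_nonneg (hmot.cpos x).le]
        exact mul_le_mul_of_nonneg_left (hacc i x (hs.trans hx.1)) (hmot.cpos x).le)
    refine h1.trans ?_
    have h2 : 0 < τ t := by have := (hT t (hs.trans hst)).1; linarith
    have h3 : 0 ≤ 1 / τ t := by positivity
    calc K * (1 / τ s - 1 / τ t) ≤ K * (1 / τ s) :=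
          mul_le_mul_of_nonneg_left (by linarith) hK0
      _ = K / τ s := by ring
  have hlim : ∀ i, ∃ V : E3, Tendsto (fun t => cm m σ (v t) i) atTop (𝓝 V) := by
    intro i
    apply cauchySeq_tendsto_of_complete
    rw [Metric.cauchySeq_iff']
    intro ε hε
    have h1 : ∀ᶠ t in atTop, K / ε + 1 ≤ τ t := hlin.time.eventually_ge_atTop _
    obtain ⟨T1, hT1⟩ := Filter.eventually_atTop.1 (h1.and (Filter.eventually_ge_atTop T))
    obtain ⟨h2, h3⟩ := hT1 T1 le_rfl
    refine ⟨T1, fun t ht => ?_⟩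
    rw [dist_eq_norm]
    refine (hcau i T1 t h3 ht).trans_lt ?_
    have h4 : 0 ≤ K / ε := by positivity
    rw [div_lt_iff₀ (by linarith)]
    calc K = ε * (K / ε) := by field_simp
      _ < ε * τ T1 := mul_lt_mul_of_pos_left (by linarith) hε
  choose V hV using hlim
  refine ⟨V, ?_, hV⟩
  intro i j hij heq
  obtain ⟨Ri, hRi⟩ := hlin.bdd i
  obtain ⟨Rj, hRj⟩ := hlin.bdd j
  have h1 : Tendsto (fun t => cm m σ (v t) i - cm m σ (v t) j) atTop (𝓝 0) := by
    have := (hV i).sub (hV j)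
    rwa [heq, sub_self] at this
  have h2 : ∀ᶠ t in atTop, ‖cm m σ (v t) i - cm m σ (v t) j‖ ≤ a / 2 := by
    have h3 := h1.norm
    rw [norm_zero] at h3
    exact h3.eventually_le_const (by positivity)
  obtain ⟨S, hS⟩ := Filter.eventually_atTop.1 ((h2.and (hRi.and hRj)).and
    (Filter.eventually_ge_atTop T))
  set X := fun t => cm m σ (q t) i - cm m σ (q t) j with hX
  have hXd : ∀ t, HasDerivAt X (c t • (cm m σ (v t) i - cm m σ (v t) j)) t := by
    intro t
    rw [smul_sub]; exact (hqd i t).sub (hqd j t)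
  have hXb : ∀ t, S ≤ t → ‖X t - X S‖ ≤ a / 2 * (τ t - τ S) := by
    intro t ht
    refine lbound hmot.τd hXd ht ?_
    intro x hx
    rw [norm_smul, Real.norm_of_nonneg (hmot.cpos x).le]
    exact mul_le_mul_of_nonneg_left (hS x hx.1).1.1 (hmot.cpos x).le
  have hτS : 1 ≤ τ S := (hT S (hS S le_rfl).2).1
  have hcon : ∀ t, S ≤ t → a / 2 * τ t ≤ ‖X S‖ + Ri + Rj := by
    intro t ht
    have e1 := (hT t (hS t ht).2).2 i j hij
    have e2 := (hS t ht).1.2.1
    have e3 := (hS t ht).1.2.2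
    have e4 := cm_near hm σ (q t) i
    have e5 := cm_near hm σ (q t) j
    have e6 := hXb t ht
    have e7 : ‖q t i - q t j‖ ≤ ‖q t i - cm m σ (q t) i‖ + ‖X t‖ + ‖q t j - cm m σ (q t) j‖ := by
      have : q t i - q t j = (q t i - cm m σ (q t) i) + X t - (q t j - cm m σ (q t) j) := by
        rw [hX]; simp only; abel
      rw [this]
      exact (norm_sub_le _ _).trans (by gcongr; exact norm_add_le _ _)
    have e8 : ‖X t‖ ≤ ‖X t - X S‖ + ‖X S‖ := by
      have : X t = (X t - X S) + X S := by abel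
      calc ‖X t‖ = ‖(X t - X S) + X S‖ := by rw [← this]
        _ ≤ _ := norm_add_le _ _
    nlinarith
  obtain ⟨t, ht1, ht2⟩ := ((hlin.time.eventually_gt_atTop
    ((‖X S‖ + Ri + Rj) / (a / 2))).and (Filter.eventually_ge_atTop S)).exists
  have e1 := hcon t ht2
  rw [div_lt_iff₀ (by positivity)] at ht1
  linarith

end Run7.h811.NB
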